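import Pool.Agent.Helper52.PD.Cut

/-!
# The cut in terms of Seifert circles (MP_ea8a26_gt, project EV3, block (4))

`σ` is the Seifert permutation of the edges: `σ e = op (nxt e)`. At a crossing `{p, q}` with `lf p` (so `lf q = false`):
`W = L (pre q) = L p`, `E = R (pre p) = R q`, `S = R (pre q) = L (pre p)`, `N = R p = L q`.
-/

set_option autoImplicit false

namespace Pool.Agent.Helper52.PD

open Relation

/-- a function constant along a permutation is constant on its cycles -/
theorem eq_of_sameCycle {P X : Type*} [Finite P] (σ : Equiv.Perm P) (v : P → X) (hv : ∀ e, v (σ e) = v e) {e e' : P}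
    (h : σ.SameCycle e e') : v e = v e' := by
  obtain ⟨n, rfl⟩ := h.exists_nat_pow_eq
  induction n with
  | zero => rfl
  | succ n ih =>
    rw [pow_succ', Equiv.Perm.mul_apply, hv]
    exact ih ⟨n, by simp⟩

/-- a function constant along a permutation has at most as many values as there are cycles -/
theorem card_image_le_cycles {P X : Type*} [Fintype P] [DecidableEq X] (σ : Equiv.Perm P) (v : P → X)
    (hv : ∀ e, v (σ e) = v e) {s : ℕ} (hs : Nat.card (Quotient (Equiv.Perm.SameCycle.setoid σ)) ≤ s) :
    (Finset.univ.image v).card ≤ s := by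
  classical
  have hc : ∀ e e' : P, (Equiv.Perm.SameCycle.setoid σ) e e' → v e = v e' := fun e e' h => eq_of_sameCycle σ v hv h
  have h1 : (Finset.univ.image v) =
      (Finset.univ : Finset (Quotient (Equiv.Perm.SameCycle.setoid σ))).image (Quotient.lift v hc) := by
    ext x
    simp only [Finset.mem_image, Finset.mem_univ, true_and]
    constructor
    · rintro ⟨e, rfl⟩
      exact ⟨Quotient.mk _ e, rfl⟩
    · rintro ⟨e, rfl⟩
      obtain ⟨e, rfl⟩ := Quotient.exists_rep e
      exact ⟨e, rfl⟩
  rw [h1]
  refine Finset.card_image_le.trans ?_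
  rw [Finset.card_univ, ← Nat.card_eq_fintype_card]
  exact hs

/-- a set of values, each constant along the cycle of one of its arguments, has at most as many elements as there are cycles -/
theorem card_le_cycles {P X : Type*} [Fintype P] [DecidableEq X] (σ : Equiv.Perm P) (v : P → X) (A : Finset X)
    (hA : ∀ a ∈ A, ∃ e, v e = a) (hv : ∀ e, v e ∈ A → v (σ e) = v e) {s : ℕ}
    (hs : Nat.card (Quotient (Equiv.Perm.SameCycle.setoid σ)) ≤ s) : A.card ≤ s := by
  classical
  rcases A.eq_empty_or_nonempty with rfl | ⟨a0, ha0⟩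
  · simp
  haveI : Nonempty P := ⟨(hA a0 ha0).choose⟩
  choose! g hg using hA
  have hc : ∀ e e' : P, v e ∈ A → σ.SameCycle e e' → v e' = v e := by
    intro e e' he h
    obtain ⟨n, rfl⟩ := h.exists_nat_pow_eq
    clear h
    induction n with
    | zero => rfl
    | succ n ih =>
      rw [pow_succ', Equiv.Perm.mul_apply, hv _ (by rw [ih]; exact he)]
      exact ih
  have hinj : Set.InjOn (fun a => (Quotient.mk (Equiv.Perm.SameCycle.setoid σ) (g a))) (A : Set X) := by
    intro a ha b hb hab
    have h1 : σ.SameCycle (g a) (g b) := Quotient.exact hab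
    have h2 := hc _ _ (by rw [hg a ha]; exact ha) h1
    rw [hg a ha, hg b hb] at h2
    exact h2.symm
  rw [← Finset.card_image_of_injOn hinj]
  refine (Finset.card_le_univ _).trans ?_
  rw [← Nat.card_eq_fintype_card]
  exact hs

variable {P F : Type*} [Fintype P] [DecidableEq P] [Fintype F] [DecidableEq F]

/-- **The cut**, with `s` the number of Seifert circles. -/
theorem cutS (nxt : Equiv.Perm P) (op : P → P) (op_op : ∀ p, op (op p) = p) (op_ne : ∀ p, op p ≠ p)
    (lf : P → Bool) (lf_op : ∀ p, lf (op p) = !lf p) (L R : P → F)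
    (hface : ∀ f : F, ∃ e, L e = f ∨ R e = f)
    (hW : ∀ x, lf x = false → L (nxt.symm x) = L (op x))
    (hS : ∀ x, lf x = false → R (nxt.symm x) = L (nxt.symm (op x)))
    (hN : ∀ x, lf x = false → L x = R (op x))
    (hE : ∀ x, lf x = false → R x = R (nxt.symm (op x)))
    (κ : F → ℤ) (hκ : ∀ e, κ (L e) = κ (R e) + 1)
    (circ : ∀ y : P → ℤ, (∀ p, y (nxt.symm p) + y (nxt.symm (op p)) = y p + y (op p)) →
      ∃ h : F → ℤ, ∀ e, y e = h (L e) - h (R e))
    (σ : Equiv.Perm P) (hσ : ∀ e, σ e = op (nxt e)) {s : ℕ}
    (hs : Nat.card (Quotient (Equiv.Perm.SameCycle.setoid σ)) ≤ s) :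
    ∃ (C : Finset P) (τ : P → ℕ), C.card ≤ s * s * s ∧ (∀ p, τ (op p) = τ p) ∧ (∀ e, e ∉ C → τ e < τ (nxt e)) ∧
      ∀ f, (∃ e, L e = f) → (∃ e, R e = f) → ((∃ e ∈ C, L e = f) ↔ ∃ e ∈ C, R e = f) := by
  have hlt : ∀ x, lf x = true → lf (op x) = false := fun x h => by rw [lf_op, h]; rfl
  refine cut nxt op op_op op_ne L R κ hκ circ (card_image_le_cycles σ (fun e => κ (L e)) (fun e => ?_) hs)
    (card_le_cycles σ L _ (fun f hf => ?_) (fun e he => ?_) hs) (card_le_cycles σ R _ (fun f hf => ?_) (fun e he => ?_) hs)
  · rw [hσ]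
    set x := nxt e with hx
    have hxe : nxt.symm x = e := by simp [hx]
    cases hl : lf x with
    | false => rw [← hW x hl, hxe]
    | true =>
      have hq := hlt x hl
      -- q = op x, p = x
      have e1 : L (op x) = R x := by
        have := hN (op x) hq
        rwa [op_op] at this
      have e2 : R (nxt.symm (op x)) = L e := by
        have := hS (op x) hq
        rwa [op_op, hxe] at this
      have e3 : L (nxt.symm (op x)) = L x := by
        have := hW (op x) hq
        rwa [op_op] at this
      have k1 := hκ (nxt.symm (op x))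
      have k2 := hκ x
      rw [e2, e3] at k1
      rw [e1]
      omega
  · simp only [Finset.mem_filter, Finset.mem_univ, true_and] at hf
    obtain ⟨e, he | he⟩ := hface f
    · exact ⟨e, he⟩
    · exact absurd he (hf e)
  · simp only [Finset.mem_filter, Finset.mem_univ, true_and] at he
    rw [hσ]
    set x := nxt e with hx
    have hxe : nxt.symm x = e := by simp [hx]
    cases hl : lf x with
    | false => rw [← hW x hl, hxe]
    | true =>
      have hq := hlt x hl
      have e2 : R (nxt.symm (op x)) = L e := by
        have := hS (op x) hq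
        rwa [op_op, hxe] at this
      exact absurd e2 (he _)
  · simp only [Finset.mem_filter, Finset.mem_univ, true_and] at hf
    obtain ⟨e, he | he⟩ := hface f
    · exact absurd he (hf e)
    · exact ⟨e, he⟩
  · simp only [Finset.mem_filter, Finset.mem_univ, true_and] at he
    rw [hσ]
    set x := nxt e with hx
    have hxe : nxt.symm x = e := by simp [hx]
    cases hl : lf x with
    | false =>
      have := hS x hl
      rw [hxe] at this
      exact absurd this.symm (he _)
    | true =>
      have hq := hlt x hl
      have := hE (op x) hq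
      rwa [op_op, hxe] at this

end Pool.Agent.Helper52.PD
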