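import Pool.Agent.Helper52.PD.CutS

/-!
# The cut in the conventions of helper43 (MP_ea8a26_gt, project EV3, block (4))

The edge `i` is the edge INTO the passage `i`. At a crossing `{p, q}`, `lf p` (right-in), `q = op p` (left-in):
`W = L q = L (nxt p)`, `E = R p = R (nxt q)`, `S = R q = L p`, `N = R (nxt p) = L (nxt q)`; `κ (R i) = κ (L i) + 1`.
-/

set_option autoImplicit false

namespace Pool.Agent.Helper52.PD

/-- A time can be made injective on the crossings. -/
theorem inj_time {P : Type*} [Finite P] (op : P → P) (op_op : ∀ p, op (op p) = p) (τ : P → ℕ) (hτ : ∀ p, τ (op p) = τ p) :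
    ∃ τ' : P → ℕ, (∀ p, τ' (op p) = τ' p) ∧ (∀ p q, τ p < τ q → τ' p < τ' q) ∧
      ∀ p q, τ' p = τ' q → q = p ∨ q = op p := by
  classical
  obtain ⟨n, ⟨e⟩⟩ := Finite.exists_equiv_fin P
  have hm : ∀ p, min (e p : ℕ) (e (op p)) < n := fun p => (min_le_left _ _).trans_lt (e p).2
  refine ⟨fun p => τ p * n + min (e p : ℕ) (e (op p)), fun p => ?_, fun p q h => ?_, fun p q h => ?_⟩
  · simp only [hτ, op_op]
    rw [min_comm]
  · have h1 := hm p
    have h2 : (τ p + 1) * n ≤ τ q * n := Nat.mul_le_mul_right _ h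
    have h3 : (τ p + 1) * n = τ p * n + n := by ring
    show τ p * n + min (e p : ℕ) (e (op p)) < τ q * n + min (e q : ℕ) (e (op q))
    omega
  · have h1 := hm p
    have h2 := hm q
    have h : τ p * n + min (e p : ℕ) (e (op p)) = τ q * n + min (e q : ℕ) (e (op q)) := h
    have h3 : τ p = τ q := by
      rcases lt_trichotomy (τ p) (τ q) with h4 | h4 | h4
      · have h5 : (τ p + 1) * n ≤ τ q * n := Nat.mul_le_mul_right _ h4
        have h6 : (τ p + 1) * n = τ p * n + n := by ring
        omega
      · exact h4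
      · have h5 : (τ q + 1) * n ≤ τ p * n := Nat.mul_le_mul_right _ h4
        have h6 : (τ q + 1) * n = τ q * n + n := by ring
        omega
    rw [h3] at h
    have h4 : min (e p : ℕ) (e (op p)) = min (e q : ℕ) (e (op q)) := by omega
    have inj : ∀ {x y : P}, (e x : ℕ) = e y → x = y := fun h => e.injective (Fin.ext h)
    rcases min_choice (e p : ℕ) (e (op p)) with h5 | h5 <;> rcases min_choice (e q : ℕ) (e (op q)) with h6 | h6 <;>
      rw [h5, h6] at h4
    · exact Or.inl (inj h4).symm
    · right
      rw [inj h4, op_op]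
    · right
      exact (inj h4).symm
    · left
      have := congrArg op (inj h4)
      rw [op_op, op_op] at this
      exact this.symm

/-- **The cut**, in the conventions of helper43, with a given edge in the cut and a time which is injective on the crossings. -/
theorem cutH {P F : Type*} [Finite P] [Finite F] (nxt : Equiv.Perm P) (op : P → P) (op_op : ∀ p, op (op p) = p)
    (op_ne : ∀ p, op p ≠ p) (lf : P → Bool) (lf_op : ∀ p, lf (op p) = !lf p) (L R : P → F)
    (hface : ∀ f : F, ∃ e, L e = f ∨ R e = f)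
    (hW : ∀ p, lf p = true → L (op p) = L (nxt p))
    (hE : ∀ p, lf p = true → R p = R (nxt (op p)))
    (hS : ∀ p, lf p = true → R (op p) = L p)
    (hN : ∀ p, lf p = true → R (nxt p) = L (nxt (op p)))
    (κ : F → ℤ) (hκ : ∀ i, κ (R i) = κ (L i) + 1)
    (circ : ∀ y : P → ℤ, (∀ p, y p + y (op p) = y (nxt p) + y (nxt (op p))) →
      ∃ h : F → ℤ, ∀ i, y i = h (L i) - h (R i))
    (σ : Equiv.Perm P) (hσ : ∀ i, σ i = nxt (op i)) {s : ℕ}
    (hs : Nat.card (Quotient (Equiv.Perm.SameCycle.setoid σ)) ≤ s) (b : P) :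
    ∃ (C : Finset P) (τ : P → ℕ), b ∈ C ∧ C.card ≤ s * s * s + 1 ∧ (∀ i, τ (op i) = τ i) ∧
      (∀ i, nxt i ∉ C → τ i < τ (nxt i)) ∧ ∀ i j, τ i = τ j → j = i ∨ j = op i := by
  classical
  have _ := Fintype.ofFinite P
  have _ := Fintype.ofFinite F
  have hlt : ∀ x, lf x = false → lf (op x) = true := fun x h => by rw [lf_op, h]; rfl
  obtain ⟨C, τ, h1, h2, h3, -⟩ := cutS nxt op op_op op_ne lf lf_op (fun e => L (nxt e)) (fun e => R (nxt e))
    (fun f => by
      obtain ⟨e, he⟩ := hface f
      exact ⟨nxt.symm e, by simpa using he⟩)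
    (fun x hx => by
      have := hW (op x) (hlt x hx)
      simp only [op_op, Equiv.apply_symm_apply] at this ⊢
      exact this)
    (fun x hx => by
      have := hS (op x) (hlt x hx)
      simp only [op_op, Equiv.apply_symm_apply] at this ⊢
      exact this)
    (fun x hx => by
      have := hN (op x) (hlt x hx)
      simp only [op_op] at this ⊢
      exact this.symm)
    (fun x hx => by
      have := hE (op x) (hlt x hx)
      simp only [op_op, Equiv.apply_symm_apply] at this ⊢
      exact this.symm)
    (fun f => - κ f) (fun e => by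
      have := hκ (nxt e)
      show -κ (L (nxt e)) = -κ (R (nxt e)) + 1
      omega)
    (fun y hy => by
      obtain ⟨h, hh⟩ := circ (fun i => y (nxt.symm i)) (fun p => by
        have := hy p
        simp only [Equiv.symm_apply_apply]
        exact this)
      exact ⟨h, fun e => by simpa using hh (nxt e)⟩)
    (nxt⁻¹ * σ * nxt) (fun e => by simp [hσ]) (s := s) (by
      refine le_of_eq_of_le (Nat.card_congr (Quotient.congr nxt fun a b => ?_)) hs
      show (nxt⁻¹ * σ * nxt).SameCycle a b ↔ σ.SameCycle (nxt a) (nxt b)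
      have := Equiv.Perm.sameCycle_conj (f := σ) (g := nxt⁻¹) (x := a) (y := b)
      simpa using this)
  obtain ⟨τ', g1, g2, g3⟩ := inj_time op op_op τ h2
  refine ⟨insert b (C.image nxt), τ', Finset.mem_insert_self _ _, ?_, g1, fun i hi => g2 _ _ (h3 i fun h => hi ?_), g3⟩
  · refine (Finset.card_insert_le _ _).trans (Nat.add_le_add_right (Finset.card_image_le.trans h1) 1)
  · exact Finset.mem_insert_of_mem (Finset.mem_image_of_mem _ h)

end Pool.Agent.Helper52.PD
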