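import Pool.Agent.Helper43.PD.Rec
import Pool.Agent.Helper52.PD.CutH

/-!
# EV3, leaf C7: the cut
-/

set_option autoImplicit false

namespace Pool.Agent.Helper52.PD.C7

open Polynomial Pool.Agent.Helper85.Exp Pool.Agent.Helper60.EV2 Pool.Agent.Helper43.PD

variable {P : Type} {G : Sh P} {F : Type} {S : FS G F} {κ : F → ℤ}

/-- C7, with a time which is injective on the crossings. -/
theorem cut_inj [Fintype P] (h : Pl G S κ) (b : P) : ∃ C : Finset P, b ∈ C ∧ C.card ≤ circles G ^ 3 + 1 ∧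
    ∃ τ : P → ℕ, (∀ i, τ (G.op i) = τ i) ∧ (∀ i, G.nxt i ∉ C → τ i < τ (G.nxt i)) ∧
      ∀ i j, τ i = τ j → j = i ∨ j = G.op i := by
  classical
  haveI hF : Finite F := Nat.finite_of_card_ne_zero (by rw [h.card]; omega)
  set σ : Equiv.Perm P := (Function.Involutive.toPerm G.op G.op_op).trans G.nxt with hσ
  have hs : Nat.card (Quotient (Equiv.Perm.SameCycle.setoid σ)) ≤ circles G := by
    unfold circles
    refine Nat.card_le_card_of_surjective
      (Quot.lift (fun i => Quotient.mk (Equiv.Perm.SameCycle.setoid σ) i) ?_) ?_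
    · rintro i j rfl
      exact Quotient.sound ⟨1, by rw [zpow_one]; rfl⟩
    · intro q
      obtain ⟨i, rfl⟩ := Quotient.exists_rep q
      exact ⟨Quot.mk _ i, rfl⟩
  obtain ⟨C, τ, h1, h2, h3, h4, h5⟩ := cutH G.nxt G.op G.op_op h.cross G.lf (fun p => G.lf_op p (h.cross p)) S.L S.R h.surj
    (fun p hp => S.west p hp) (fun p hp => S.east p hp) (fun p hp => S.south p hp) (fun p hp => S.north p hp)
    κ h.idx h.homZ σ (fun i => rfl) hs b
  exact ⟨C, h1, h2.trans (by ring_nf; exact le_rfl), τ, h3, h4, h5⟩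

/-- C7: the cut -/
theorem cut [Fintype P] (h : Pl G S κ) (b : P) : ∃ C : Finset P, b ∈ C ∧ C.card ≤ 4 * circles G ^ 3 + 1 ∧
    ∃ τ : P → ℕ, (∀ i, τ (G.op i) = τ i) ∧ ∀ i, G.nxt i ∉ C → τ i < τ (G.nxt i) := by
  obtain ⟨C, h1, h2, τ, h3, h4, -⟩ := cut_inj h b
  exact ⟨C, h1, h2.trans (by omega), τ, h3, h4⟩

end Pool.Agent.Helper52.PD.C7
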