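import Mathlib

/-!
# The cut of a positive planar diagram (MP_ea8a26_gt, project EV3, block (4))

Abstract form: `P` = edges = passages, `F` = faces, `L`, `R` the faces on the two sides of an edge, `κ` an Alexander numbering.
A set of at most `a * b * s` edges is removed; the other edges increase a time.
-/

set_option autoImplicit false

namespace Pool.Agent.Helper52.PD

open Relation

section rank

variable {V : Type*} [Fintype V]

/-- rank function of an acyclic relation -/
theorem exists_rank (r : V → V → Prop) (hr : ∀ v, ¬ TransGen r v v) :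
    ∃ t : V → ℕ, (∀ v w, r v w → t v < t w) ∧ ∀ v w, (∀ u, TransGen r u v ↔ TransGen r u w) → t v = t w := by
  classical
  refine ⟨fun v => (Finset.univ.filter fun u => TransGen r u v).card, fun v w h => ?_, fun v w h => ?_⟩
  · apply Finset.card_lt_card
    rw [Finset.ssubset_iff_of_subset]
    · exact ⟨v, by simpa using TransGen.single h, by simpa using hr v⟩
    · intro u hu
      simp only [Finset.mem_filter, Finset.mem_univ, true_and] at hu ⊢
      exact hu.tail h
  · simp only [h]

end rank

set_option linter.unusedSectionVars false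
set_option linter.style.haveILetI false

variable {P F : Type*} [Fintype P] [DecidableEq P]

/-- From face to face across an edge. -/
def Step (L R : P → F) (f g : F) : Prop := ∃ e, L e = f ∧ R e = g

/-- A chain of edges from `a` to `b`. -/
theorem chain_of_reach (L R : P → F) (κ : F → ℤ) (hκ : ∀ e, κ (L e) = κ (R e) + 1) {a b : F}
    (h : ReflTransGen (Step L R) a b) :
    ∃ K : Finset P, Set.InjOn (fun e => κ (L e)) (K : Set P) ∧ (∀ e ∈ K, κ b < κ (L e)) ∧
      (∀ g : F → ℤ, (∀ e ∈ K, g (L e) = g (R e)) → g a = g b) ∧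
      (b = a ∨ ∃ e ∈ K, R e = b) ∧
      (∀ f, f ≠ a → (∃ e ∈ K, L e = f) → ∃ e ∈ K, R e = f) ∧ ∀ f, f ≠ b → (∃ e ∈ K, R e = f) → ∃ e ∈ K, L e = f := by
  induction h with
  | refl => exact ⟨∅, by simp, by simp, fun g _ => rfl, Or.inl rfl, by simp, by simp⟩
  | tail _ hs ih =>
    obtain ⟨e, rfl, rfl⟩ := hs
    obtain ⟨K, h1, h2, h3, h5, h6, h7⟩ := ih
    refine ⟨insert e K, ?_, ?_, ?_, Or.inr ⟨e, Finset.mem_insert_self _ _, rfl⟩, ?_, ?_⟩
    · rw [Finset.coe_insert, Set.injOn_insert (fun he => absurd (h2 e he) (lt_irrefl _))]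
      refine ⟨h1, ?_⟩
      rintro ⟨e', he', h4⟩
      exact absurd (h2 e' he') (by simp only at h4; rw [h4]; exact lt_irrefl _)
    · intro e' he'
      rcases Finset.mem_insert.1 he' with rfl | he'
      · rw [hκ e']
        omega
      · have := h2 e' he'
        have := hκ e
        omega
    · intro g hg
      rw [h3 g fun e' he' => hg e' (Finset.mem_insert_of_mem he')]
      exact hg e (Finset.mem_insert_self _ _)
    · rintro f hf ⟨e', he', rfl⟩
      rcases Finset.mem_insert.1 he' with rfl | he'
      · rcases h5 with h5 | ⟨e2, he2, h5⟩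
        · exact absurd h5 hf
        · exact ⟨e2, Finset.mem_insert_of_mem he2, h5⟩
      · obtain ⟨e2, he2, h8⟩ := h6 _ hf ⟨e', he', rfl⟩
        exact ⟨e2, Finset.mem_insert_of_mem he2, h8⟩
    · rintro f hf ⟨e', he', rfl⟩
      rcases Finset.mem_insert.1 he' with rfl | he'
      · exact absurd rfl hf
      · by_cases h9 : R e' = L e
        · exact ⟨e, Finset.mem_insert_self _ _, h9.symm⟩
        · obtain ⟨e2, he2, h8⟩ := h7 _ h9 ⟨e', he', rfl⟩
          exact ⟨e2, Finset.mem_insert_of_mem he2, h8⟩

/-- Every face is reached from a face without edges on its left. -/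
theorem exists_top [Finite F] (L R : P → F) (κ : F → ℤ) (hκ : ∀ e, κ (L e) = κ (R e) + 1) (f : F) :
    ∃ a, (∀ e, R e ≠ a) ∧ ReflTransGen (Step L R) a f := by
  classical
  haveI := Fintype.ofFinite F
  obtain ⟨a, ha, hm⟩ := Finset.exists_max_image (Finset.univ.filter fun a => ReflTransGen (Step L R) a f) κ
    ⟨f, by simp [ReflTransGen.refl]⟩
  simp only [Finset.mem_filter, Finset.mem_univ, true_and] at ha hm
  refine ⟨a, fun e he => ?_, ha⟩
  have := hm (L e) (ReflTransGen.head ⟨e, rfl, he⟩ ha)
  have h2 := hκ e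
  rw [he] at h2
  omega

/-- Every face reaches a face without edges on its right. -/
theorem exists_bot [Finite F] (L R : P → F) (κ : F → ℤ) (hκ : ∀ e, κ (L e) = κ (R e) + 1) (f : F) :
    ∃ b, (∀ e, L e ≠ b) ∧ ReflTransGen (Step L R) f b := by
  classical
  haveI := Fintype.ofFinite F
  obtain ⟨b, hb, hm⟩ := Finset.exists_min_image (Finset.univ.filter fun b => ReflTransGen (Step L R) f b) κ
    ⟨f, by simp [ReflTransGen.refl]⟩
  simp only [Finset.mem_filter, Finset.mem_univ, true_and] at hb hm
  refine ⟨b, fun e he => ?_, hb⟩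
  have := hm (R e) (hb.tail ⟨e, he, rfl⟩)
  have h2 := hκ e
  rw [he] at h2
  omega

theorem reach_mono (L R : P → F) (g : F → ℤ) (hg : ∀ e, g (R e) ≤ g (L e)) {a b : F}
    (h : ReflTransGen (Step L R) a b) : g b ≤ g a := by
  induction h with
  | refl => exact le_rfl
  | tail _ hs ih =>
    obtain ⟨e, rfl, rfl⟩ := hs
    exact (hg e).trans ih

/-- The cut set: a circulation `y ≥ 0` that vanishes on it vanishes. -/
theorem exists_cut [Fintype F] [DecidableEq F] (L R : P → F) (κ : F → ℤ) (hκ : ∀ e, κ (L e) = κ (R e) + 1) {a b s : ℕ}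
    (hs : (Finset.univ.image fun e => κ (L e)).card ≤ s)
    (ha : (Finset.univ.filter fun f : F => ∀ e, R e ≠ f).card ≤ a)
    (hb : (Finset.univ.filter fun f : F => ∀ e, L e ≠ f).card ≤ b) :
    ∃ C : Finset P, C.card ≤ a * b * s ∧
      (∀ h : F → ℤ, (∀ e, h (R e) ≤ h (L e)) → (∀ e ∈ C, h (L e) = h (R e)) → ∀ e, h (L e) = h (R e)) ∧
      ∀ f, (∃ e, L e = f) → (∃ e, R e = f) → ((∃ e ∈ C, L e = f) ↔ ∃ e ∈ C, R e = f) := by
  classical
  have key : ∀ p : F × F, ∃ K : Finset P, K.card ≤ s ∧ (ReflTransGen (Step L R) p.1 p.2 →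
      ∀ g : F → ℤ, (∀ e ∈ K, g (L e) = g (R e)) → g p.1 = g p.2) ∧
      (∀ f, f ≠ p.1 → (∃ e ∈ K, L e = f) → ∃ e ∈ K, R e = f) ∧
      ∀ f, f ≠ p.2 → (∃ e ∈ K, R e = f) → ∃ e ∈ K, L e = f := by
    intro p
    by_cases hp : ReflTransGen (Step L R) p.1 p.2
    · obtain ⟨K, h1, -, h3, -, h4, h5⟩ := chain_of_reach L R κ hκ hp
      refine ⟨K, ?_, fun _ => h3, h4, h5⟩
      rw [← Finset.card_image_of_injOn h1]
      exact (Finset.card_le_card (Finset.image_subset_image (Finset.subset_univ _))).trans hs
    · exact ⟨∅, by simp, fun h => absurd h hp, by simp, by simp⟩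
  choose K hK1 hK2 hK3 hK4 using key
  refine ⟨((Finset.univ.filter fun f : F => ∀ e, R e ≠ f) ×ˢ (Finset.univ.filter fun f : F => ∀ e, L e ≠ f)).biUnion K,
    ?_, ?_, ?_⟩
  · calc _ ≤ ((Finset.univ.filter fun f : F => ∀ e, R e ≠ f) ×ˢ
            (Finset.univ.filter fun f : F => ∀ e, L e ≠ f)).card * s :=
          Finset.card_biUnion_le_card_mul _ _ _ fun p _ => hK1 p
      _ ≤ a * b * s := by
          rw [Finset.card_product]
          exact Nat.mul_le_mul_right _ (Nat.mul_le_mul ha hb)
  · intro h hmono hC e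
    obtain ⟨t, ht1, ht2⟩ := exists_top L R κ hκ (L e)
    obtain ⟨u, hu1, hu2⟩ := exists_bot L R κ hκ (R e)
    have htu : ReflTransGen (Step L R) t u := (ht2.tail ⟨e, rfl, rfl⟩).trans hu2
    have h1 : h t = h u := by
      refine hK2 (t, u) htu h fun e' he' => hC e' ?_
      rw [Finset.mem_biUnion]
      exact ⟨(t, u), by simp [ht1, hu1], he'⟩
    have h2 := reach_mono L R h hmono ht2
    have h3 := reach_mono L R h hmono hu2
    have h4 := hmono e
    omega
  · intro f hfL hfR
    constructor
    · rintro ⟨e, he, h1⟩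
      obtain ⟨p, hp, he⟩ := Finset.mem_biUnion.1 he
      have hp2 := hp
      simp only [Finset.mem_product, Finset.mem_filter, Finset.mem_univ, true_and] at hp2
      obtain ⟨e2, he2, h2⟩ := hK3 p f (by rintro rfl; obtain ⟨e3, h3⟩ := hfR; exact hp2.1 e3 h3) ⟨e, he, h1⟩
      exact ⟨e2, Finset.mem_biUnion.2 ⟨p, hp, he2⟩, h2⟩
    · rintro ⟨e, he, h1⟩
      obtain ⟨p, hp, he⟩ := Finset.mem_biUnion.1 he
      have hp2 := hp
      simp only [Finset.mem_product, Finset.mem_filter, Finset.mem_univ, true_and] at hp2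
      obtain ⟨e2, he2, h2⟩ := hK4 p f (by rintro rfl; obtain ⟨e3, h3⟩ := hfL; exact hp2.2 e3 h3) ⟨e, he, h1⟩
      exact ⟨e2, Finset.mem_biUnion.2 ⟨p, hp, he2⟩, h2⟩

section time

variable (nxt : Equiv.Perm P) (op : P → P)

/-- A step of time: an edge that is not cut. -/
def TStep (C : Finset P) (p q : P) : Prop := ∃ e, e ∉ C ∧ (e = p ∨ e = op p) ∧ (nxt e = q ∨ nxt e = op q)

/-- the flow of a walk -/
theorem flow_of_walk (op_op : ∀ p, op (op p) = p) (op_ne : ∀ p, op p ≠ p) (C : Finset P) {p q : P}
    (h : TransGen (TStep nxt op C) p q) :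
    ∃ y : P → ℤ, (∀ e, 0 ≤ y e) ∧ (∃ e, y e ≠ 0) ∧ (∀ e ∈ C, y e = 0) ∧
      ∀ x, y x + y (op x) - (y (nxt.symm x) + y (nxt.symm (op x))) =
        (if x = p ∨ x = op p then 1 else 0) - (if x = q ∨ x = op q then 1 else 0) := by
  have one : ∀ {p q : P}, TStep nxt op C p q → ∃ y : P → ℤ, (∀ e, 0 ≤ y e) ∧ (∃ e, y e ≠ 0) ∧ (∀ e ∈ C, y e = 0) ∧
      ∀ x, y x + y (op x) - (y (nxt.symm x) + y (nxt.symm (op x))) =
        (if x = p ∨ x = op p then 1 else 0) - (if x = q ∨ x = op q then 1 else 0) := by
    rintro p q ⟨e, he, h1, h2⟩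
    refine ⟨fun f => if f = e then 1 else 0, fun f => by dsimp only; split_ifs <;> norm_num, ⟨e, by simp⟩, fun f hf => ?_, fun x => ?_⟩
    · dsimp only
      rw [if_neg]
      rintro rfl
      exact he hf
    · have a1 : ((if x = e then (1 : ℤ) else 0) + (if op x = e then 1 else 0)) = (if x = p ∨ x = op p then 1 else 0) := by
        have b1 : (x = e ∨ op x = e) ↔ (x = p ∨ x = op p) := by
          rcases h1 with rfl | rfl
          · constructor
            · rintro (rfl | h)
              · exact Or.inl rfl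
              · right
                rw [← h, op_op]
            · rintro (rfl | h)
              · exact Or.inl rfl
              · right
                rw [h, op_op]
          · constructor
            · rintro (rfl | h)
              · exact Or.inr rfl
              · left
                rw [← op_op x, h, op_op]
            · rintro (rfl | h)
              · exact Or.inr rfl
              · exact Or.inl h
        by_cases c1 : x = e
        · by_cases c2 : op x = e
          · exact absurd (c2.trans c1.symm) (op_ne x)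
          · rw [if_pos c1, if_neg c2, if_pos (b1.1 (Or.inl c1))]
            rfl
        · by_cases c2 : op x = e
          · rw [if_neg c1, if_pos c2, if_pos (b1.1 (Or.inr c2))]
            rfl
          · rw [if_neg c1, if_neg c2, if_neg (fun h => by rcases b1.2 h with h | h; exacts [c1 h, c2 h])]
            rfl
      have a2 : ((if nxt.symm x = e then (1 : ℤ) else 0) + (if nxt.symm (op x) = e then 1 else 0)) =
          (if x = q ∨ x = op q then 1 else 0) := by
        have b0 : ∀ z, nxt.symm z = e ↔ z = nxt e := fun z => by rw [Equiv.symm_apply_eq]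
        simp only [b0]
        have b1 : (x = nxt e ∨ op x = nxt e) ↔ (x = q ∨ x = op q) := by
          rcases h2 with h2 | h2
          · rw [h2]
            constructor
            · rintro (h | h)
              · exact Or.inl h
              · right
                rw [← h, op_op]
            · rintro (h | h)
              · exact Or.inl h
              · right
                rw [h, op_op]
          · rw [h2]
            constructor
            · rintro (h | h)
              · exact Or.inr h
              · left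
                rw [← op_op x, h, op_op]
            · rintro (h | h)
              · right
                rw [h]
              · exact Or.inl h
        by_cases c1 : x = nxt e
        · by_cases c2 : op x = nxt e
          · exact absurd (c2.trans c1.symm) (op_ne x)
          · rw [if_pos c1, if_neg c2, if_pos (b1.1 (Or.inl c1))]
            rfl
        · by_cases c2 : op x = nxt e
          · rw [if_neg c1, if_pos c2, if_pos (b1.1 (Or.inr c2))]
            rfl
          · rw [if_neg c1, if_neg c2, if_neg (fun h => by rcases b1.2 h with h | h; exacts [c1 h, c2 h])]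
            rfl
      simp only [a1, a2]
  induction h with
  | single h => exact one h
  | tail _ hs ih =>
    obtain ⟨y, h1, ⟨e0, h2⟩, h3, h4⟩ := ih
    obtain ⟨z, g1, g2, g3, g4⟩ := one hs
    refine ⟨fun e => y e + z e, fun e => add_nonneg (h1 e) (g1 e), ⟨e0, ?_⟩, fun e he => ?_, fun x => ?_⟩
    · have := h1 e0
      have := g1 e0
      show y e0 + z e0 ≠ 0
      omega
    · show y e + z e = 0
      rw [h3 e he, g3 e he, add_zero]
    · have := h4 x
      have := g4 x
      simp only
      linarith

/-- **The cut.** At most `a * b * s` edges are cut, and a time increases along all other edges. -/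
theorem cut [Fintype F] [DecidableEq F] (op_op : ∀ p, op (op p) = p) (op_ne : ∀ p, op p ≠ p) (L R : P → F) (κ : F → ℤ)
    (hκ : ∀ e, κ (L e) = κ (R e) + 1)
    (circ : ∀ y : P → ℤ, (∀ p, y (nxt.symm p) + y (nxt.symm (op p)) = y p + y (op p)) →
      ∃ h : F → ℤ, ∀ e, y e = h (L e) - h (R e)) {a b s : ℕ}
    (hs : (Finset.univ.image fun e => κ (L e)).card ≤ s)
    (ha : (Finset.univ.filter fun f : F => ∀ e, R e ≠ f).card ≤ a)
    (hb : (Finset.univ.filter fun f : F => ∀ e, L e ≠ f).card ≤ b) :
    ∃ (C : Finset P) (τ : P → ℕ), C.card ≤ a * b * s ∧ (∀ p, τ (op p) = τ p) ∧ (∀ e, e ∉ C → τ e < τ (nxt e)) ∧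
      ∀ f, (∃ e, L e = f) → (∃ e, R e = f) → ((∃ e ∈ C, L e = f) ↔ ∃ e ∈ C, R e = f) := by
  obtain ⟨C, hC, hcut, hLR⟩ := exists_cut L R κ hκ hs ha hb
  have hirr : ∀ p, ¬ TransGen (TStep nxt op C) p p := by
    intro p hp
    obtain ⟨y, h1, ⟨e, h2⟩, h3, h4⟩ := flow_of_walk nxt op op_op op_ne C hp
    obtain ⟨h, hh⟩ := circ y fun x => by
      have := h4 x
      rw [sub_self] at this
      omega
    apply h2
    rw [hh, hcut h (fun e => ?_) (fun e he => ?_) e, sub_self]
    · have := h1 e
      rw [hh] at this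
      omega
    · have := h3 e he
      rw [hh] at this
      omega
  obtain ⟨t, ht1, ht2⟩ := exists_rank _ hirr
  refine ⟨C, t, hC, fun p => ht2 _ _ fun u => ?_, fun e he => ht1 _ _ ⟨e, he, Or.inl rfl, Or.inl rfl⟩, hLR⟩
  have sym : ∀ {u p : P}, TransGen (TStep nxt op C) u p → TransGen (TStep nxt op C) u (op p) := by
    intro u p h
    cases h with
    | single h =>
      obtain ⟨e, he, h1, h2⟩ := h
      exact TransGen.single ⟨e, he, h1, by rw [op_op]; exact h2.symm⟩
    | tail h0 h =>
      obtain ⟨e, he, h1, h2⟩ := h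
      exact h0.tail ⟨e, he, h1, by rw [op_op]; exact h2.symm⟩
  constructor
  · intro h
    have := sym h
    rwa [op_op] at this
  · exact sym

end time

end Pool.Agent.Helper52.PD
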